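import Pool.Agent.T9h90.SP.Spec

/-! Project SP: closure properties (helper73). -/

set_option autoImplicit false

namespace Pool.Agent.T9h73.SP

open Pool.Agent.T9h90.SP Pool.Agent.Helper617.RM

universe u

theorem unb_mono {M : Type u} [LT M] {A B : Set M} (h : A ⊆ B) (hA : Unb A) : Unb B := by
  intro b
  obtain ⟨y, hy, hb⟩ := hA b
  exact ⟨y, h hy, hb⟩

theorem cl : S_CP.{u} → S_NC.{u} → S_CL.{u} := by
  intro hCP hNC N _ f hf H c a b hS
  constructor
  · intro hR H' hH' hsub hunb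
    obtain ⟨x, hx, hu⟩ := hS H' hH' hsub hunb
    obtain ⟨y, hy⟩ := hR (Nc f c H' a.size x) (hNC N f hf c H' hH' _ _)
      (fun w hw => hsub hw.1) hu
    exact ⟨_, (hCP N.M f H' c a b).1 x y hx hy⟩
  · intro hR H' hH' hsub hunb
    obtain ⟨x, hx, hu⟩ := hS H' hH' hsub hunb
    obtain ⟨y, hy, hu2⟩ := hR (Nc f c H' a.size x) (hNC N f hf c H' hH' _ _)
      (fun w hw => hsub hw.1) hu
    refine ⟨_, (hCP N.M f H' c a b).1 x y hx hy, ?_⟩
    refine unb_mono ?_ hu2
    rintro w ⟨⟨hw1, hw2⟩, hw3⟩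
    refine ⟨hw1, fun i hi => ?_⟩
    have hi' : i < a.size + b.size := hi
    simp only
    split_ifs with h1
    · exact hw2 i h1
    · exact hw3 (i - a.size) (by omega)

end Pool.Agent.T9h73.SP
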