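import Pool.Agent.T9h90.SP.Spec

/-! Project SP: sums of copies (helper73). -/

set_option autoImplicit false

namespace Pool.Agent.T9h73.SP

open Pool.Agent.T9h90.SP

universe u

theorem size_pos : ∀ p : Sep, 0 < p.size
  | .one => Nat.one_pos
  | .node _ a b => by
    have := size_pos a
    show 0 < a.size + b.size
    omega

theorem val_lt : ∀ (p : Sep) (i : ℕ), i < p.size → p.val i < p.size
  | .one, i, h => by simp [Sep.val, Sep.size]
  | .node true a b, i, h => by
    have h' : i < a.size + b.size := h
    show Sep.val _ i < a.size + b.size
    unfold Sep.val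
    split_ifs with h1
    · have := val_lt a i h1; omega
    · have := val_lt b (i - a.size) (by omega); omega
  | .node false a b, i, h => by
    have h' : i < a.size + b.size := h
    show Sep.val _ i < a.size + b.size
    unfold Sep.val
    split_ifs with h1
    · have := val_lt a i h1; omega
    · have := val_lt b (i - a.size) (by omega); omega

theorem cmp_ll (c : Bool) (a b : Sep) {i j : ℕ} (hi : i < a.size) (hj : j < a.size) :
    decide ((Sep.node c a b).val i < (Sep.node c a b).val j) = decide (a.val i < a.val j) := by
  cases c <;> simp [Sep.val, hi, hj]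

theorem cmp_rr (c : Bool) (a b : Sep) (i j : ℕ) :
    decide ((Sep.node c a b).val (a.size + i) < (Sep.node c a b).val (a.size + j)) =
      decide (b.val i < b.val j) := by
  cases c <;> simp [Sep.val]

theorem cmp_lr (c : Bool) (a b : Sep) {i j : ℕ} (hi : i < a.size) (hj : j < b.size) :
    decide ((Sep.node c a b).val i < (Sep.node c a b).val (a.size + j)) = c := by
  cases c
  · have h1 := val_lt b j hj
    simp [Sep.val, hi]
    omega
  · have h1 := val_lt a i hi
    simp [Sep.val, hi]
    omega

theorem cp : S_CP.{u} := by
  intro M _ f H c a b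
  constructor
  · intro x y hx hy
    refine ⟨fun i hi => ?_, fun i j hij hj => ?_⟩
    · have hi' : i < a.size + b.size := hi
      simp only
      split_ifs with h1
      · exact hx.1 i h1
      · exact (hy.1 (i - a.size) (by omega)).1
    · have hj' : j < a.size + b.size := hj
      simp only
      by_cases h1 : j < a.size
      · have h2 : i < a.size := by omega
        rw [if_pos h1, if_pos h2, cmp_ll c a b h2 h1]
        exact hx.2 i j hij h1
      · obtain ⟨k, rfl⟩ : ∃ k, j = a.size + k := ⟨j - a.size, by omega⟩
        rw [if_neg h1, Nat.add_sub_cancel_left]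
        by_cases h2 : i < a.size
        · rw [if_pos h2, cmp_lr c a b h2 (by omega)]
          exact (hy.1 k (by omega)).2 i h2
        · obtain ⟨l, rfl⟩ : ∃ l, i = a.size + l := ⟨i - a.size, by omega⟩
          rw [if_neg h2, Nat.add_sub_cancel_left, cmp_rr]
          exact hy.2 l k (by omega) (by omega)
  · intro z hz
    have hs : (Sep.node c a b).size = a.size + b.size := rfl
    refine ⟨⟨fun i hi => hz.1 i (by omega), fun i j hij hj => ?_⟩, ⟨fun i hi => ?_, fun i j hij hj => ?_⟩⟩
    · have := hz.2 i j hij (by omega)
      rwa [cmp_ll c a b (by omega) hj] at this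
    · refine ⟨hz.1 _ (by omega), fun k hk => ?_⟩
      have := hz.2 k (a.size + i) (by omega) (by omega)
      rwa [cmp_lr c a b hk hi] at this
    · have := hz.2 (a.size + i) (a.size + j) (by omega) (by omega)
      rwa [cmp_rr] at this

end Pool.Agent.T9h73.SP
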